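import Pool.Agent.Y716.M.Defs

/-!
# Normalised zeros of multihomogeneous forms
-/

set_option autoImplicit false

namespace Pool.Agent.Y362.MH

open Pool.Agent.Y716.M

/-- Scaling of the blocks. -/
theorem aeval_block {K : Type*} [CommRing K] {r : ℕ} {n d : Fin r → ℕ} (f : MvPolynomial (Var n) ℤ)
    (hf : ∀ s ∈ f.support, ∀ i : Fin r, ∑ j : Fin (n i + 1), s ⟨i, j⟩ = d i)
    (c : Fin r → K) (x : Var n → K) :
    MvPolynomial.aeval (fun a => c a.1 * x a) f = (∏ i, c i ^ d i) * MvPolynomial.aeval x f := by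
  rw [MvPolynomial.aeval_def, MvPolynomial.aeval_def, MvPolynomial.eval₂_eq',
    MvPolynomial.eval₂_eq', Finset.mul_sum]
  refine Finset.sum_congr rfl (fun s hs => ?_)
  have h1 : ∏ a : Var n, (c a.1 * x a) ^ s a = (∏ i, c i ^ d i) * ∏ a : Var n, x a ^ s a := by
    simp only [mul_pow, Finset.prod_mul_distrib]
    congr 1
    rw [Fintype.prod_sigma]
    refine Finset.prod_congr rfl (fun i _ => ?_)
    rw [← hf s hs i, ← Finset.prod_pow_eq_pow_sum]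
  rw [h1]
  ring

theorem exists_approx_M {r : ℕ} {n d : Fin r → ℕ} {p : ℕ} [Fact p.Prime] (f : MvPolynomial (Var n) ℤ)
    (hf : ∀ s ∈ f.support, ∀ i : Fin r, ∑ j : Fin (n i + 1), s ⟨i, j⟩ = d i)
    (h : ∃ x : Var n → ℚ_[p], (∀ i, ∃ j, x ⟨i, j⟩ ≠ 0) ∧ MvPolynomial.aeval x f = 0) (E : ℕ) :
    ∃ z : Var n → ℤ, Norm1 z ∧ (p : ℤ) ^ E ∣ MvPolynomial.eval z f := by
  classical
  obtain ⟨x, hx0, hxf⟩ := h
  have hmax : ∀ i : Fin r, ∃ ρ : Fin (n i + 1), ∀ j, ‖x ⟨i, j⟩‖ ≤ ‖x ⟨i, ρ⟩‖ := by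
    intro i
    obtain ⟨ρ, _, hρ⟩ := Finset.exists_max_image (Finset.univ : Finset (Fin (n i + 1)))
      (fun j => ‖x ⟨i, j⟩‖) Finset.univ_nonempty
    exact ⟨ρ, fun j => hρ j (Finset.mem_univ j)⟩
  choose ρ hρ using hmax
  have hne : ∀ i, x ⟨i, ρ i⟩ ≠ 0 := by
    intro i h0
    obtain ⟨j, hj⟩ := hx0 i
    have h1 := hρ i j
    rw [h0, norm_zero] at h1
    exact hj (norm_le_zero_iff.mp h1)
  have hle : ∀ a : Var n, ‖(x ⟨a.1, ρ a.1⟩)⁻¹ * x a‖ ≤ 1 := by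
    rintro ⟨i, j⟩
    rw [norm_mul, norm_inv, inv_mul_le_iff₀ (norm_pos_iff.mpr (hne i)), mul_one]
    exact hρ i j
  set y : Var n → ℤ_[p] := fun a => ⟨(x ⟨a.1, ρ a.1⟩)⁻¹ * x a, hle a⟩ with hy
  have hyr : ∀ i, y ⟨i, ρ i⟩ = 1 := by
    intro i
    apply Subtype.ext
    simp [hy, hne i]
  have hyf : MvPolynomial.aeval y f = 0 := by
    have h1 : (algebraMap ℤ_[p] ℚ_[p]) (MvPolynomial.aeval y f) = 0 := by
      have h2 : (algebraMap ℤ_[p] ℚ_[p]) (MvPolynomial.aeval y f)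
          = MvPolynomial.aeval (fun a : Var n => (fun i => (x ⟨i, ρ i⟩)⁻¹) a.1 * x a) f := by
        rw [MvPolynomial.aeval_def, MvPolynomial.aeval_def, MvPolynomial.hom_eval₂]
        congr 1
      rw [h2]
      have h3 := aeval_block f hf (fun i => (x ⟨i, ρ i⟩)⁻¹) x
      rw [hxf, mul_zero] at h3
      exact h3
    have hinj : Function.Injective (algebraMap ℤ_[p] ℚ_[p]) := FaithfulSMul.algebraMap_injective _ _
    exact (map_eq_zero_iff _ hinj).mp h1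
  set z : Var n → ℤ := fun a => if a.2 = ρ a.1 then 1 else (PadicInt.appr (y a) E : ℤ) with hz
  have hker : ∀ a, PadicInt.toZModPow E (y a) = ((z a : ℤ) : ZMod (p ^ E)) := by
    rintro ⟨i, j⟩
    by_cases hj : j = ρ i
    · subst hj
      rw [hyr, hz]; simp
    · have : PadicInt.toZModPow E (y ⟨i, j⟩) =
          ((PadicInt.appr (y ⟨i, j⟩) E : ℕ) : ZMod (p ^ E)) := rfl
      rw [this, hz]
      simp [hj]
  refine ⟨z, fun i => ⟨ρ i, by simp [hz]⟩, ?_⟩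
  have h3 : ((MvPolynomial.eval z f : ℤ) : ZMod (p ^ E)) = 0 := by
    have h4 : PadicInt.toZModPow E (MvPolynomial.aeval y f) = ((MvPolynomial.eval z f : ℤ) : ZMod (p ^ E)) := by
      rw [MvPolynomial.aeval_def, MvPolynomial.hom_eval₂]
      have h5 : ((MvPolynomial.eval z f : ℤ) : ZMod (p ^ E))
          = (Int.castRingHom (ZMod (p ^ E))) (MvPolynomial.eval₂ (RingHom.id ℤ) z f) := rfl
      rw [h5, MvPolynomial.hom_eval₂]
      have h6 : ((PadicInt.toZModPow E).comp (algebraMap ℤ ℤ_[p]))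
          = (Int.castRingHom (ZMod (p ^ E))).comp (RingHom.id ℤ) := RingHom.ext_int _ _
      rw [h6]
      congr 1
      funext i
      exact hker i
    rw [← h4, hyf, map_zero]
  rw [ZMod.intCast_zmod_eq_zero_iff_dvd] at h3
  exact_mod_cast h3

theorem exists_real_M {r : ℕ} {n d : Fin r → ℕ} (f : MvPolynomial (Var n) ℤ)
    (hf : ∀ s ∈ f.support, ∀ i : Fin r, ∑ j : Fin (n i + 1), s ⟨i, j⟩ = d i)
    (h : ∃ x : Var n → ℝ, (∀ i, ∃ j, x ⟨i, j⟩ ≠ 0) ∧ MvPolynomial.aeval x f = 0) :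
    ∃ ξ : Var n → ℝ, Norm1 ξ ∧ (∀ a, |ξ a| ≤ 1) ∧ MvPolynomial.aeval ξ f = 0 := by
  obtain ⟨x, hx0, hxf⟩ := h
  have hmax : ∀ i : Fin r, ∃ ρ : Fin (n i + 1), ∀ j, |x ⟨i, j⟩| ≤ |x ⟨i, ρ⟩| := by
    intro i
    obtain ⟨ρ, _, hρ⟩ := Finset.exists_max_image (Finset.univ : Finset (Fin (n i + 1)))
      (fun j => |x ⟨i, j⟩|) Finset.univ_nonempty
    exact ⟨ρ, fun j => hρ j (Finset.mem_univ j)⟩
  choose ρ hρ using hmax
  have hne : ∀ i, x ⟨i, ρ i⟩ ≠ 0 := by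
    intro i h0
    obtain ⟨j, hj⟩ := hx0 i
    have h1 := hρ i j
    rw [h0, abs_zero] at h1
    exact hj (abs_eq_zero.mp (le_antisymm h1 (abs_nonneg _)))
  refine ⟨fun a => (x ⟨a.1, ρ a.1⟩)⁻¹ * x a, fun i => ⟨ρ i, inv_mul_cancel₀ (hne i)⟩, ?_, ?_⟩
  · rintro ⟨i, j⟩
    rw [abs_mul, abs_inv, inv_mul_le_iff₀ (abs_pos.mpr (hne i)), mul_one]
    exact hρ i j
  · have := aeval_block f hf (fun i => (x ⟨i, ρ i⟩)⁻¹) x
    rw [hxf, mul_zero] at this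
    exact this

theorem aeval_castZ {τ K : Type*} [CommRing K] (f : MvPolynomial τ ℤ) (x : τ → ℤ) :
    MvPolynomial.aeval (fun a => ((x a : ℤ) : K)) f = ((MvPolynomial.eval x f : ℤ) : K) := by
  rw [MvPolynomial.aeval_def]
  have h5 : ((MvPolynomial.eval x f : ℤ) : K)
      = (Int.castRingHom K) (MvPolynomial.eval₂ (RingHom.id ℤ) x f) := rfl
  rw [h5, MvPolynomial.hom_eval₂]
  have h6 : (algebraMap ℤ K) = (Int.castRingHom K).comp (RingHom.id ℤ) := RingHom.ext_int _ _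
  rw [h6]
  congr 1

theorem rat_iff_M {r : ℕ} {n d : Fin r → ℕ} (f : MvPolynomial (Var n) ℤ)
    (hf : ∀ s ∈ f.support, ∀ i : Fin r, ∑ j : Fin (n i + 1), s ⟨i, j⟩ = d i) :
    (∃ x : Var n → ℚ, (∀ i, ∃ j, x ⟨i, j⟩ ≠ 0) ∧ MvPolynomial.aeval x f = 0) ↔
    ∃ x : Var n → ℤ, (∀ i, ∃ j, x ⟨i, j⟩ ≠ 0) ∧ MvPolynomial.eval x f = 0 := by
  classical
  constructor
  · rintro ⟨x, hx0, hx⟩
    obtain ⟨b, hb⟩ := IsLocalization.exist_integer_multiples_of_finite (nonZeroDivisors ℤ) x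
    choose a ha using hb
    have hb0 : (((b : ℤ) : ℚ)) ≠ 0 := by
      intro h
      exact nonZeroDivisors.ne_zero b.2 (by exact_mod_cast h)
    have hax : (fun i => ((a i : ℤ) : ℚ)) = fun i => ((b : ℤ) : ℚ) * x i := by
      funext i
      have := ha i
      rw [Algebra.smul_def] at this
      simpa using this
    refine ⟨a, ?_, ?_⟩
    · intro i
      obtain ⟨j, hj⟩ := hx0 i
      refine ⟨j, fun h0 => hj ?_⟩
      have := congrFun hax ⟨i, j⟩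
      simp only [h0, Int.cast_zero] at this
      exact (mul_eq_zero.mp this.symm).resolve_left hb0
    · have h1 : MvPolynomial.aeval (fun i => ((a i : ℤ) : ℚ)) f = 0 := by
        have h2 := aeval_block f hf (fun _ => ((b : ℤ) : ℚ)) x
        rw [hx, mul_zero] at h2
        rw [hax]
        exact h2
      rw [aeval_castZ] at h1
      exact_mod_cast h1
  · rintro ⟨x, hx0, hx⟩
    refine ⟨fun i => (x i : ℚ), ?_, ?_⟩
    · intro i
      obtain ⟨j, hj⟩ := hx0 i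
      exact ⟨j, Int.cast_ne_zero.mpr hj⟩
    · rw [aeval_castZ, hx, Int.cast_zero]

theorem aeval_castQ {τ K : Type*} [Field K] [CharZero K] (f : MvPolynomial τ ℤ) (x : τ → ℚ)
    (h : MvPolynomial.aeval x f = 0) :
    MvPolynomial.aeval (fun a => ((x a : ℚ) : K)) f = 0 := by
  have h1 : (Rat.castHom K) (MvPolynomial.aeval x f) = 0 := by rw [h, map_zero]
  rw [MvPolynomial.aeval_def, MvPolynomial.hom_eval₂] at h1
  rw [MvPolynomial.aeval_def, ← h1]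
  have h6 : (algebraMap ℤ K) = (Rat.castHom K).comp (algebraMap ℤ ℚ) := RingHom.ext_int _ _
  rw [h6]
  congr 1

theorem rat_els_M {r : ℕ} {n : Fin r → ℕ} (f : MvPolynomial (Var n) ℤ)
    (h : ∃ x : Var n → ℚ, (∀ i, ∃ j, x ⟨i, j⟩ ≠ 0) ∧ MvPolynomial.aeval x f = 0) :
    (∃ x : Var n → ℝ, (∀ i, ∃ j, x ⟨i, j⟩ ≠ 0) ∧ MvPolynomial.aeval x f = 0) ∧
    ∀ p : ℕ, ∀ _ : Fact p.Prime, ∃ x : Var n → Padic p, (∀ i, ∃ j, x ⟨i, j⟩ ≠ 0) ∧
      MvPolynomial.aeval x f = 0 := by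
  obtain ⟨x, hx0, hx⟩ := h
  refine ⟨⟨fun a => ((x a : ℚ) : ℝ), ?_, aeval_castQ f x hx⟩, fun p _ =>
    ⟨fun a => ((x a : ℚ) : Padic p), ?_, aeval_castQ f x hx⟩⟩
  · intro i
    obtain ⟨j, hj⟩ := hx0 i
    exact ⟨j, Rat.cast_ne_zero.mpr hj⟩
  · intro i
    obtain ⟨j, hj⟩ := hx0 i
    exact ⟨j, Rat.cast_ne_zero.mpr hj⟩

end Pool.Agent.Y362.MH
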