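import Pool.Agent.Y716.M.Defs
import Pool.Agent.Y278.Z8.Real

/-!
# Few integral multihomogeneous forms have an almost singular approximate zero
-/

namespace Pool.Agent.Y362.MH

open Pool.Agent.Y716.M

variable {r : ℕ} {n : Fin r → ℕ}

/-- the free variables, for pivots `ρ` -/
abbrev Fr (ρ : ∀ i, Fin (n i + 1)) : Type := {a : Var n // a.2 ≠ ρ a.1}

/-- the exponents of the perturbations -/
noncomputable def mk (d : Fin r → ℕ) (ρ : ∀ i, Fin (n i + 1)) : Option (Fr ρ) → (Var n →₀ ℕ)
  | none => Finsupp.equivFunOnFinite.symm (fun a => if a.2 = ρ a.1 then d a.1 else 0)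
  | some b => Finsupp.equivFunOnFinite.symm (fun a =>
      if a = b.1 then 1 else if a.2 = ρ a.1 then (if a.1 = b.1.1 then d a.1 - 1 else d a.1) else 0)

theorem mk_none (d : Fin r → ℕ) (ρ : ∀ i, Fin (n i + 1)) (a : Var n) :
    mk d ρ none a = if a.2 = ρ a.1 then d a.1 else 0 := rfl

theorem mk_some (d : Fin r → ℕ) (ρ : ∀ i, Fin (n i + 1)) (b : Fr ρ) (a : Var n) :
    mk d ρ (some b) a = if a = b.1 then 1 else if a.2 = ρ a.1 then
      (if a.1 = b.1.1 then d a.1 - 1 else d a.1) else 0 := rfl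

theorem mk_mem {d : Fin r → ℕ} (hd : ∀ i, 1 ≤ d i) (ρ : ∀ i, Fin (n i + 1))
    (k : Option (Fr ρ)) : mk d ρ k ∈ monsM n d := by
  rw [mem_monsM]
  intro i
  cases k with
  | none =>
    simp only [mk_none]
    rw [Finset.sum_ite_eq']
    simp
  | some b =>
    obtain ⟨⟨i₀, j₀⟩, hb⟩ := b
    simp only [mk_some]
    by_cases hi : i = i₀
    · subst hi
      simp only [Sigma.mk.injEq, heq_eq_eq, true_and, if_true]
      have h1 : ∀ j : Fin (n i + 1), (if j = j₀ then 1 else if j = ρ i then d i - 1 else 0) =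
          (if j = j₀ then 1 else 0) + (if j = ρ i then d i - 1 else 0) := by
        intro j
        by_cases h2 : j = j₀
        · subst h2
          simp only [if_true]
          rw [if_neg hb]
        · simp [h2]
      simp only [h1, Finset.sum_add_distrib, Finset.sum_ite_eq', Finset.mem_univ, if_true]
      have := hd i
      omega
    · have h1 : ∀ j : Fin (n i + 1), (if (⟨i, j⟩ : Var n) = ⟨i₀, j₀⟩ then 1 else
          if j = ρ i then (if i = i₀ then d i - 1 else d i) else 0) =
          if j = ρ i then d i else 0 := by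
        intro j
        rw [if_neg, if_neg hi]
        intro h
        exact hi (congrArg Sigma.fst h)
      simp only [h1]
      rw [Finset.sum_ite_eq']
      simp

theorem mk_inj (d : Fin r → ℕ) (ρ : ∀ i, Fin (n i + 1)) : Function.Injective (mk d ρ) := by
  intro k l h
  cases k with
  | none =>
    cases l with
    | none => rfl
    | some b =>
      exfalso
      have h1 := DFunLike.congr_fun h b.1
      rw [mk_none, mk_some, if_neg b.2, if_pos rfl] at h1
      exact zero_ne_one h1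
  | some a =>
    cases l with
    | none =>
      exfalso
      have h1 := DFunLike.congr_fun h a.1
      rw [mk_some, mk_none, if_pos rfl, if_neg a.2] at h1
      exact one_ne_zero h1
    | some b =>
      have h1 := DFunLike.congr_fun h a.1
      rw [mk_some, mk_some, if_pos rfl] at h1
      by_cases hab : a.1 = b.1
      · rw [Subtype.ext hab]
      · rw [if_neg hab, if_neg a.2] at h1
        exact absurd h1 one_ne_zero

/-- The perturbations used. -/
noncomputable def pert (d : Fin r → ℕ) (ρ : ∀ i, Fin (n i + 1)) (c : Option (Fr ρ) → ℤ) :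
    MvPolynomial (Var n) ℤ :=
  ∑ k, MvPolynomial.monomial (mk d ρ k) (c k)

theorem pert_isM {d : Fin r → ℕ} (hd : ∀ i, 1 ≤ d i) (ρ : ∀ i, Fin (n i + 1))
    {c : Option (Fr ρ) → ℤ} {S : ℝ} (hS : 0 ≤ S) (hc : ∀ k, |(c k : ℝ)| ≤ S) :
    IsM d S (pert d ρ c) := by
  classical
  have hco : ∀ m, (∃ k, mk d ρ k = m ∧ (pert d ρ c).coeff m = c k) ∨
      (pert d ρ c).coeff m = 0 := by
    intro m
    unfold pert
    rw [MvPolynomial.coeff_sum]
    by_cases hm : ∃ k, mk d ρ k = m
    · left
      obtain ⟨k, hk⟩ := hm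
      refine ⟨k, hk, ?_⟩
      rw [Finset.sum_eq_single k]
      · rw [MvPolynomial.coeff_monomial, if_pos hk]
      · intro l _ hl
        rw [MvPolynomial.coeff_monomial, if_neg]
        intro h
        exact hl (mk_inj d ρ (h.trans hk.symm))
      · intro h; exact absurd (Finset.mem_univ k) h
    · right
      apply Finset.sum_eq_zero
      intro k _
      rw [MvPolynomial.coeff_monomial, if_neg]
      intro h
      exact hm ⟨k, h⟩
  constructor
  · intro s hs
    rcases hco s with ⟨k, hk, _⟩ | h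
    · rw [← mem_monsM, ← hk]
      exact mk_mem hd ρ k
    · exact absurd h (MvPolynomial.mem_support_iff.mp hs)
  · intro s
    rcases hco s with ⟨k, _, h⟩ | h
    · rw [h]; exact hc k
    · rw [h]; simpa using hS

theorem IsM.add' {d : Fin r → ℕ} {R S : ℝ} {f g : MvPolynomial (Var n) ℤ} (hf : IsM d R f)
    (hg : IsM d S g) : IsM d (R + S) (f + g) := by
  constructor
  · intro s hs
    have h1 : f.coeff s ≠ 0 ∨ g.coeff s ≠ 0 := by
      by_contra h
      push Not at h
      apply MvPolynomial.mem_support_iff.mp hs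
      rw [MvPolynomial.coeff_add, h.1, h.2, add_zero]
    rcases h1 with h | h
    · exact hf.1 s (MvPolynomial.mem_support_iff.mpr h)
    · exact hg.1 s (MvPolynomial.mem_support_iff.mpr h)
  · intro s
    rw [MvPolynomial.coeff_add]
    push_cast
    exact (abs_add_le _ _).trans (add_le_add (hf.2 s) (hg.2 s))

theorem prod_pow_eq_one {A : Type*} [CommRing A] (ρ : ∀ i, Fin (n i + 1)) (x : Var n → A)
    (hx : ∀ i, x ⟨i, ρ i⟩ = 1) (s : Var n →₀ ℕ) (hs : ∀ a : Var n, a.2 ≠ ρ a.1 → s a = 0) :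
    (s.prod fun a k => x a ^ k) = 1 := by
  rw [Finsupp.prod_fintype _ _ (fun a => pow_zero _)]
  apply Finset.prod_eq_one
  intro a _
  by_cases ha : a.2 = ρ a.1
  · have h1 : x a = 1 := by
      have h2 := hx a.1
      rw [← ha] at h2
      exact h2
    rw [h1, one_pow]
  · rw [hs a ha, pow_zero]

theorem pert_aeval {A : Type*} [CommRing A] (d : Fin r → ℕ) (ρ : ∀ i, Fin (n i + 1))
    (c : Option (Fr ρ) → ℤ) (x : Var n → A) (hx : ∀ i, x ⟨i, ρ i⟩ = 1)
    (hc : ∀ a, c (some a) = 0) :
    MvPolynomial.aeval x (pert d ρ c) = (c none : A) := by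
  unfold pert
  rw [map_sum, Finset.sum_eq_single none]
  · rw [MvPolynomial.aeval_monomial, prod_pow_eq_one ρ x hx]
    · simp
    · intro a ha
      rw [mk_none, if_neg ha]
  · intro k _ hk
    cases k with
    | none => exact absurd rfl hk
    | some a => rw [hc a]; simp
  · intro h; exact absurd (Finset.mem_univ _) h

theorem pert_pderiv {A : Type*} [CommRing A] (d : Fin r → ℕ) (ρ : ∀ i, Fin (n i + 1))
    (c : Option (Fr ρ) → ℤ) (x : Var n → A) (hx : ∀ i, x ⟨i, ρ i⟩ = 1) (b : Fr ρ) :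
    MvPolynomial.aeval x (MvPolynomial.pderiv b.1 (pert d ρ c)) = (c (some b) : A) := by
  classical
  unfold pert
  rw [map_sum, map_sum, Finset.sum_eq_single (some b)]
  · rw [MvPolynomial.pderiv_monomial, MvPolynomial.aeval_monomial, prod_pow_eq_one ρ x hx]
    · rw [mk_some, if_pos rfl]
      simp
    · intro a ha
      rw [Finsupp.tsub_apply, mk_some]
      by_cases hab : a = b.1
      · subst hab
        rw [if_pos rfl, Finsupp.single_eq_same]
      · rw [if_neg hab, if_neg ha, Nat.zero_sub]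
  · intro k _ hk
    rw [MvPolynomial.pderiv_monomial]
    have h0 : mk d ρ k b.1 = 0 := by
      cases k with
      | none => rw [mk_none, if_neg b.2]
      | some a =>
        rw [mk_some, if_neg, if_neg b.2]
        intro h
        exact hk (by rw [Subtype.ext h])
    rw [h0]
    simp
  · intro h; exact absurd (Finset.mem_univ _) h

theorem pert_sub (d : Fin r → ℕ) (ρ : ∀ i, Fin (n i + 1)) (c c' : Option (Fr ρ) → ℤ) :
    pert d ρ (fun k => c k - c' k) = pert d ρ c - pert d ρ c' := by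
  unfold pert
  rw [← Finset.sum_sub_distrib]
  exact Finset.sum_congr rfl (fun k _ => map_sub _ _ _)

/-- Abstract counting: a property `P` of forms such that perturbations by differences of vectors
of the box `B` destroy it. -/
theorem inj_count {d : Fin r → ℕ} (hd : ∀ i, 1 ≤ d i) (ρ : ∀ i, Fin (n i + 1)) (R S : ℝ)
    (hS : 0 ≤ S) (P : MvPolynomial (Var n) ℤ → Prop)
    (B : Finset (Option (Fr ρ) → ℤ)) (hB : ∀ c ∈ B, ∀ k, |(c k : ℝ)| ≤ S)
    (hP : ∀ f g, P f → P g → ∀ c ∈ B, ∀ c' ∈ B,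
      pert d ρ (fun k => c k - c' k) = g - f → c = c')
    [DecidablePred P] :
    ((formsM n d R).filter P).card * B.card ≤ (formsM n d (R + S)).card := by
  classical
  rw [← Finset.card_product]
  apply Finset.card_le_card_of_injOn (fun p => p.1 + pert d ρ p.2)
  · rintro ⟨f, c⟩ hp
    simp only [Finset.coe_product, Set.mem_prod, Finset.mem_coe] at hp
    simp only [Finset.mem_coe, mem_formsM]
    apply IsM.add' (mem_formsM.mp (Finset.mem_filter.mp hp.1).1)
    exact pert_isM hd ρ hS (hB c hp.2)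
  · rintro ⟨f, c⟩ hp ⟨f', c'⟩ hp' heq
    simp only [Finset.coe_product, Set.mem_prod, Finset.mem_coe] at hp hp'
    obtain ⟨hf, hc⟩ := hp
    obtain ⟨hf', hc'⟩ := hp'
    simp only at heq
    have hpe : pert d ρ (fun k => c k - c' k) = f' - f := by
      rw [pert_sub]; linear_combination heq
    have hcc := hP f f' (Finset.mem_filter.mp hf).2 (Finset.mem_filter.mp hf').2 c hc c' hc' hpe
    subst hcc
    have := add_right_cancel heq
    subst this
    rfl

open scoped Classical in
/-- For fixed `x`, few forms have an almost singular approximate zero at `x`. -/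
theorem bad_at_point {d : Fin r → ℕ} (hd : ∀ i, 1 ≤ d i) (Q : ℕ) (R : ℝ)
    (ρ : ∀ i, Fin (n i + 1)) (x : Var n → ℤ) (hx : ∀ i, x ⟨i, ρ i⟩ = 1) :
    ((formsM n d R).filter (fun f => (Q : ℤ) ∣ MvPolynomial.eval x f ∧
      ∀ a, (Q : ℤ) ∣ MvPolynomial.eval x (MvPolynomial.pderiv a f))).card *
      Q ^ Fintype.card (Option (Fr ρ)) ≤ (formsM n d (R + Q)).card := by
  have hB : (Fintype.piFinset (fun _ : Option (Fr ρ) => Finset.Icc (1 : ℤ) Q)).card =
      Q ^ Fintype.card (Option (Fr ρ)) := by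
    rw [Fintype.card_piFinset]
    simp
  rw [← hB]
  have hev : ∀ f : MvPolynomial (Var n) ℤ, MvPolynomial.eval x f = MvPolynomial.aeval x f := by
    intro f; rw [MvPolynomial.aeval_eq_eval]
  apply inj_count hd ρ R Q (by positivity)
  · intro c hc k
    have h1 := Finset.mem_Icc.mp (Fintype.mem_piFinset.mp hc k)
    rw [abs_le]
    constructor
    · have : (0 : ℝ) ≤ (c k : ℝ) := by exact_mod_cast (by omega : (0 : ℤ) ≤ c k)
      have h3 : (0 : ℝ) ≤ (Q : ℝ) := by positivity
      linarith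
    · exact_mod_cast h1.2
  · rintro f f' ⟨h1, h2⟩ ⟨h1', h2'⟩ c hc c' hc' hpe
    have hzero : ∀ k, (Q : ℤ) ∣ c k - c' k → c k = c' k := by
      intro k hdv
      have h3 := Finset.mem_Icc.mp (Fintype.mem_piFinset.mp hc k)
      have h4 := Finset.mem_Icc.mp (Fintype.mem_piFinset.mp hc' k)
      have h5 : c k - c' k = 0 := by
        apply Int.eq_zero_of_abs_lt_dvd hdv
        rw [abs_lt]
        constructor <;> omega
      omega
    have hne : ∀ a : Fr ρ, c (some a) = c' (some a) := by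
      intro a
      apply hzero
      have h3 := pert_pderiv d ρ (fun k => c k - c' k) x hx a
      simp only [Int.cast_id] at h3
      rw [← h3, hpe, map_sub, map_sub, ← hev, ← hev]
      exact dvd_sub (h2' a.1) (h2 a.1)
    have hr : c none = c' none := by
      apply hzero
      have h3 := pert_aeval d ρ (fun k => c k - c' k) x hx
        (fun a => by simp only [hne a, sub_self])
      simp only [Int.cast_id] at h3
      rw [← h3, hpe, map_sub, ← hev, ← hev]
      exact dvd_sub h1' h1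
    funext k
    cases k with
    | none => exact hr
    | some a => exact hne a

open scoped Classical in
theorem card_norm_vecs (Q : ℕ) (ρ : ∀ i, Fin (n i + 1)) :
    ((Fintype.piFinset (fun _ : Var n => Finset.Icc (1 : ℤ) Q)).filter
      (fun x => ∀ i, x ⟨i, ρ i⟩ = 1)).card * Q ≤ Q ^ Fintype.card (Option (Fr ρ)) := by
  have hB : (Fintype.piFinset (fun _ : Option (Fr ρ) => Finset.Icc (1 : ℤ) Q)).card =
      Q ^ Fintype.card (Option (Fr ρ)) := by
    rw [Fintype.card_piFinset]
    simp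
  have hQ : (Finset.Icc (1 : ℤ) Q).card = Q := by simp
  rw [← hB]
  nth_rewrite 2 [← hQ]
  rw [← Finset.card_product]
  apply Finset.card_le_card_of_injOn
    (fun p k => Option.elim k p.2 (fun a : Fr ρ => p.1 a.1))
  · rintro ⟨x, c⟩ hp
    simp only [Finset.coe_product, Set.mem_prod, Finset.mem_coe] at hp
    simp only [Finset.mem_coe, Fintype.mem_piFinset]
    intro k
    cases k with
    | none => exact hp.2
    | some a => exact Fintype.mem_piFinset.mp (Finset.mem_filter.mp hp.1).1 a.1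
  · rintro ⟨x, c⟩ hp ⟨x', c'⟩ hp' heq
    simp only [Finset.coe_product, Set.mem_prod, Finset.mem_coe, Finset.mem_filter] at hp hp'
    simp only at heq
    have h1 : c = c' := congrFun heq none
    have h2 : x = x' := by
      funext a
      by_cases ha : a.2 = ρ a.1
      · have e1 := hp.1.2 a.1
        have e2 := hp'.1.2 a.1
        rw [← ha] at e1 e2
        exact e1.trans e2.symm
      · exact congrFun heq (some ⟨a, ha⟩)
    rw [h1, h2]

open scoped Classical in
theorem bad_count_M_int {r : ℕ} {n d : Fin r → ℕ} (hd : ∀ i, 1 ≤ d i) (Q : ℕ) (hQ : 1 ≤ Q) (R : ℝ) (hR : 0 ≤ R) :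
    ((formsM n d R).filter (fun f => ∃ x : Var n → ℤ, Norm1 x ∧
      (Q : ℤ) ∣ MvPolynomial.eval x f ∧
      ∀ a, (Q : ℤ) ∣ MvPolynomial.eval x (MvPolynomial.pderiv a f))).card * Q ≤
    (∏ i, (n i + 1)) * (formsM n d (R + Q)).card := by
  have _hR := hR
  set bad := (formsM n d R).filter (fun f => ∃ x : Var n → ℤ, Norm1 x ∧
      (Q : ℤ) ∣ MvPolynomial.eval x f ∧
      ∀ a, (Q : ℤ) ∣ MvPolynomial.eval x (MvPolynomial.pderiv a f)) with hbad
  set V : (∀ i, Fin (n i + 1)) → Finset (Var n → ℤ) := fun ρ =>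
    (Fintype.piFinset (fun _ : Var n => Finset.Icc (1 : ℤ) Q)).filter
      (fun x => ∀ i, x ⟨i, ρ i⟩ = 1) with hV
  set P : (Var n → ℤ) → Finset (MvPolynomial (Var n) ℤ) := fun x =>
    (formsM n d R).filter (fun f => (Q : ℤ) ∣ MvPolynomial.eval x f ∧
      ∀ a, (Q : ℤ) ∣ MvPolynomial.eval x (MvPolynomial.pderiv a f)) with hP
  have hcov : bad ⊆ (Finset.univ : Finset (∀ i, Fin (n i + 1))).biUnion (fun ρ =>
        (V ρ).biUnion (fun x => P x)) := by
    intro f hf
    obtain ⟨hf1, x, hx, h1, h2⟩ := Finset.mem_filter.mp hf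
    choose ρ hρ using hx
    rw [Finset.mem_biUnion]
    refine ⟨ρ, Finset.mem_univ _, ?_⟩
    rw [Finset.mem_biUnion]
    have hQ0 : (0 : ℤ) < Q := by exact_mod_cast hQ
    have hcong : ∀ i, (Q : ℤ) ∣ ((x i - 1) % Q + 1) - x i := by
      intro i
      have h3 := Int.emod_add_mul_ediv (x i - 1) Q
      exact ⟨-((x i - 1) / Q), by linear_combination h3⟩
    refine ⟨fun i => (x i - 1) % Q + 1, ?_, ?_⟩
    · simp only [hV]
      rw [Finset.mem_filter, Fintype.mem_piFinset]
      refine ⟨fun i => ?_, fun i => ?_⟩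
      · rw [Finset.mem_Icc]
        have h3 := Int.emod_nonneg (x i - 1) hQ0.ne'
        have h4 := Int.emod_lt_of_pos (x i - 1) hQ0
        constructor <;> omega
      · simp only [hρ i]
        simp
    · simp only [hP]
      rw [Finset.mem_filter]
      refine ⟨hf1, ?_, fun i => ?_⟩
      · have := dvd_add (Pool.Agent.Y278.Z8.eval_congr_dvd f hcong) h1
        simpa using this
      · have := dvd_add (Pool.Agent.Y278.Z8.eval_congr_dvd (MvPolynomial.pderiv i f) hcong) (h2 i)
        simpa using this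
  set N := (formsM n d (R + Q)).card with hN
  have hone : ∀ ρ : (∀ i, Fin (n i + 1)), (∑ x ∈ V ρ, (P x).card) * Q ≤ N := by
    intro ρ
    set k := Fintype.card (Option (Fr ρ)) with hk
    have hqpos : 0 < Q ^ k := pow_pos hQ _
    have h1 : (∑ x ∈ V ρ, (P x).card) * Q * Q ^ k ≤ N * Q ^ k := by
      calc (∑ x ∈ V ρ, (P x).card) * Q * Q ^ k = (∑ x ∈ V ρ, (P x).card * Q ^ k) * Q := by
            rw [← Finset.sum_mul]; ring
        _ ≤ ((V ρ).card * N) * Q := by
            apply Nat.mul_le_mul_right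
            rw [← smul_eq_mul (V ρ).card]
            apply Finset.sum_le_card_nsmul
            intro x hx
            exact bad_at_point hd Q R ρ x (Finset.mem_filter.mp hx).2
        _ = ((V ρ).card * Q) * N := by ring
        _ ≤ Q ^ k * N := Nat.mul_le_mul_right _ (card_norm_vecs Q ρ)
        _ = N * Q ^ k := by ring
    exact Nat.le_of_mul_le_mul_right h1 hqpos
  have hcard : Fintype.card (∀ i, Fin (n i + 1)) = ∏ i, (n i + 1) := by
    rw [Fintype.card_pi]
    simp
  calc bad.card * Q ≤ (∑ ρ : (∀ i, Fin (n i + 1)), ∑ x ∈ V ρ, (P x).card) * Q := by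
        apply Nat.mul_le_mul_right
        refine (Finset.card_le_card hcov).trans (Finset.card_biUnion_le.trans ?_)
        exact Finset.sum_le_sum (fun ρ _ => Finset.card_biUnion_le)
    _ = ∑ ρ : (∀ i, Fin (n i + 1)), (∑ x ∈ V ρ, (P x).card) * Q := by
        rw [Finset.sum_mul]
    _ ≤ ∑ _ρ : (∀ i, Fin (n i + 1)), N := Finset.sum_le_sum (fun ρ _ => hone ρ)
    _ = _ := by
        rw [Finset.sum_const, Finset.card_univ, smul_eq_mul, hcard]

/-! ### the real version -/

theorem poly_eq_sum {ι : Type*} (Ms : Finset (ι →₀ ℕ)) {f : MvPolynomial ι ℤ}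
    (hf : ∀ m, f.coeff m ≠ 0 → m ∈ Ms) :
    f = ∑ m ∈ Ms, MvPolynomial.C (f.coeff m) * MvPolynomial.monomial m 1 := by
  classical
  apply MvPolynomial.ext
  intro m
  rw [MvPolynomial.coeff_sum]
  simp only [MvPolynomial.coeff_C_mul, MvPolynomial.coeff_monomial, mul_ite, mul_one, mul_zero]
  rw [Finset.sum_ite_eq']
  split_ifs with h
  · rfl
  · by_contra hne
    exact h (hf m hne)

/-- Taylor estimates for integral polynomials with exponents in a finite set. -/
theorem poly_taylor {ι : Type*} [Fintype ι] (Ms : Finset (ι →₀ ℕ)) : ∃ K : ℝ, 0 ≤ K ∧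
    ∀ (R : ℝ), 0 ≤ R → ∀ f : MvPolynomial ι ℤ, (∀ m, f.coeff m ≠ 0 → m ∈ Ms) →
    (∀ m, |((f.coeff m : ℤ) : ℝ)| ≤ R) →
    ∀ (ξ η : ι → ℝ) (δ : ℝ), 0 ≤ δ → (∀ i, |ξ i| ≤ 1) → (∀ i, |η i| ≤ 1) →
      (∀ i, |η i - ξ i| ≤ δ) →
      |MvPolynomial.aeval η f| ≤ |MvPolynomial.aeval ξ f| +
        ∑ i, |MvPolynomial.aeval ξ (MvPolynomial.pderiv i f)| * δ + K * R * δ ^ 2 ∧
      ∀ i, |MvPolynomial.aeval η (MvPolynomial.pderiv i f)| ≤
        |MvPolynomial.aeval ξ (MvPolynomial.pderiv i f)| + K * R * δ := by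
  classical
  choose K hK hT using fun g : MvPolynomial ι ℤ => Pool.Agent.Y278.Z8.taylor_aux g
  set K1 : ℝ := ∑ m ∈ Ms, K (MvPolynomial.monomial m 1) with hK1
  set K2 : ℝ := ∑ i, ∑ m ∈ Ms, K (MvPolynomial.pderiv i (MvPolynomial.monomial m 1)) with hK2
  have hK1' : 0 ≤ K1 := Finset.sum_nonneg (fun m _ => hK _)
  have hK2' : 0 ≤ K2 := Finset.sum_nonneg (fun i _ => Finset.sum_nonneg (fun m _ => hK _))
  refine ⟨K1 + K2, by positivity, ?_⟩
  intro R hR f hf hfR ξ η δ hδ hξ hη hd
  have hfs := poly_eq_sum Ms hf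
  constructor
  · have e1 : ∀ x : ι → ℝ, MvPolynomial.aeval x f =
        ∑ m ∈ Ms, ((f.coeff m : ℤ) : ℝ) * MvPolynomial.aeval x
          (MvPolynomial.monomial m (1 : ℤ)) := by
      intro x
      conv_lhs => rw [hfs]
      rw [map_sum]
      refine Finset.sum_congr rfl (fun m _ => ?_)
      rw [map_mul, MvPolynomial.aeval_C]
      rfl
    have e2 : ∀ i, MvPolynomial.aeval ξ (MvPolynomial.pderiv i f) =
        ∑ m ∈ Ms, ((f.coeff m : ℤ) : ℝ) * MvPolynomial.aeval ξ
          (MvPolynomial.pderiv i (MvPolynomial.monomial m (1 : ℤ))) := by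
      intro i
      conv_lhs => rw [hfs]
      rw [map_sum, map_sum]
      refine Finset.sum_congr rfl (fun m _ => ?_)
      rw [MvPolynomial.pderiv_C_mul, map_mul, MvPolynomial.aeval_C]
      rfl
    have e3 : MvPolynomial.aeval η f - MvPolynomial.aeval ξ f -
        ∑ i, MvPolynomial.aeval ξ (MvPolynomial.pderiv i f) * (η i - ξ i) =
        ∑ m ∈ Ms, ((f.coeff m : ℤ) : ℝ) *
          (MvPolynomial.aeval η (MvPolynomial.monomial m (1 : ℤ)) -
            MvPolynomial.aeval ξ (MvPolynomial.monomial m (1 : ℤ)) -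
            ∑ i, MvPolynomial.aeval ξ (MvPolynomial.pderiv i (MvPolynomial.monomial m (1 : ℤ))) *
              (η i - ξ i)) := by
      have e3' : ∑ i, MvPolynomial.aeval ξ (MvPolynomial.pderiv i f) * (η i - ξ i) =
          ∑ m ∈ Ms, ((f.coeff m : ℤ) : ℝ) *
            ∑ i, MvPolynomial.aeval ξ (MvPolynomial.pderiv i (MvPolynomial.monomial m (1 : ℤ))) *
              (η i - ξ i) := by
        simp only [e2, Finset.sum_mul, Finset.mul_sum]
        rw [Finset.sum_comm]
        refine Finset.sum_congr rfl (fun m _ => Finset.sum_congr rfl (fun i _ => ?_))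
        ring
      rw [e1, e1, e3', ← Finset.sum_sub_distrib, ← Finset.sum_sub_distrib]
      refine Finset.sum_congr rfl (fun m _ => ?_)
      ring
    have e4 : |MvPolynomial.aeval η f - MvPolynomial.aeval ξ f -
        ∑ i, MvPolynomial.aeval ξ (MvPolynomial.pderiv i f) * (η i - ξ i)| ≤ K1 * R * δ ^ 2 := by
      rw [e3]
      refine (Finset.abs_sum_le_sum_abs _ _).trans ?_
      rw [hK1, Finset.sum_mul, Finset.sum_mul]
      refine Finset.sum_le_sum (fun m _ => ?_)
      rw [abs_mul]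
      have h1 := (hT (MvPolynomial.monomial m 1) ξ η δ hδ hξ hη hd).2.2
      have h2 := hfR m
      calc |((f.coeff m : ℤ) : ℝ)| * _ ≤ R * (K (MvPolynomial.monomial m 1) * δ ^ 2) :=
            mul_le_mul h2 h1 (abs_nonneg _) hR
        _ = _ := by ring
    have e5 : |∑ i, MvPolynomial.aeval ξ (MvPolynomial.pderiv i f) * (η i - ξ i)| ≤
        ∑ i, |MvPolynomial.aeval ξ (MvPolynomial.pderiv i f)| * δ := by
      refine (Finset.abs_sum_le_sum_abs _ _).trans ?_
      refine Finset.sum_le_sum (fun i _ => ?_)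
      rw [abs_mul]
      exact mul_le_mul_of_nonneg_left (hd i) (abs_nonneg _)
    have e6 : MvPolynomial.aeval η f = MvPolynomial.aeval ξ f +
        (∑ i, MvPolynomial.aeval ξ (MvPolynomial.pderiv i f) * (η i - ξ i)) +
        (MvPolynomial.aeval η f - MvPolynomial.aeval ξ f -
        ∑ i, MvPolynomial.aeval ξ (MvPolynomial.pderiv i f) * (η i - ξ i)) := by ring
    rw [e6]
    refine (abs_add_le _ _).trans ?_
    refine (add_le_add (abs_add_le _ _) le_rfl).trans ?_
    have h7 : 0 ≤ K2 * R * δ ^ 2 := by positivity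
    have h8 : (K1 + K2) * R * δ ^ 2 = K1 * R * δ ^ 2 + K2 * R * δ ^ 2 := by ring
    rw [h8]
    linarith
  · intro i
    have e2 : ∀ x : ι → ℝ, MvPolynomial.aeval x (MvPolynomial.pderiv i f) =
        ∑ m ∈ Ms, ((f.coeff m : ℤ) : ℝ) * MvPolynomial.aeval x
          (MvPolynomial.pderiv i (MvPolynomial.monomial m (1 : ℤ))) := by
      intro x
      conv_lhs => rw [hfs]
      rw [map_sum, map_sum]
      refine Finset.sum_congr rfl (fun m _ => ?_)
      rw [MvPolynomial.pderiv_C_mul, map_mul, MvPolynomial.aeval_C]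
      rfl
    have e3 : |MvPolynomial.aeval η (MvPolynomial.pderiv i f) -
        MvPolynomial.aeval ξ (MvPolynomial.pderiv i f)| ≤
        (∑ m ∈ Ms, K (MvPolynomial.pderiv i (MvPolynomial.monomial m 1))) * R * δ := by
      rw [e2, e2, ← Finset.sum_sub_distrib]
      refine (Finset.abs_sum_le_sum_abs _ _).trans ?_
      rw [Finset.sum_mul, Finset.sum_mul]
      refine Finset.sum_le_sum (fun m _ => ?_)
      rw [← mul_sub, abs_mul]
      have h1 := (hT (MvPolynomial.pderiv i (MvPolynomial.monomial m 1)) ξ η δ hδ hξ hη hd).2.1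
      have h2 := hfR m
      calc |((f.coeff m : ℤ) : ℝ)| * _ ≤
            R * (K (MvPolynomial.pderiv i (MvPolynomial.monomial m 1)) * δ) :=
            mul_le_mul h2 h1 (abs_nonneg _) hR
        _ = _ := by ring
    have e4 : (∑ m ∈ Ms, K (MvPolynomial.pderiv i (MvPolynomial.monomial m 1))) ≤ K2 := by
      rw [hK2]
      exact Finset.single_le_sum
        (f := fun i => ∑ m ∈ Ms, K (MvPolynomial.pderiv i (MvPolynomial.monomial m 1)))
        (fun i _ => Finset.sum_nonneg (fun m _ => hK _)) (Finset.mem_univ i)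
    have e5 : (∑ m ∈ Ms, K (MvPolynomial.pderiv i (MvPolynomial.monomial m 1))) * R * δ ≤
        (K1 + K2) * R * δ := by
      apply mul_le_mul_of_nonneg_right _ hδ
      apply mul_le_mul_of_nonneg_right _ hR
      linarith
    have e6 : MvPolynomial.aeval η (MvPolynomial.pderiv i f) =
        MvPolynomial.aeval ξ (MvPolynomial.pderiv i f) +
        (MvPolynomial.aeval η (MvPolynomial.pderiv i f) -
        MvPolynomial.aeval ξ (MvPolynomial.pderiv i f)) := by ring
    rw [e6]
    refine (abs_add_le _ _).trans ?_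
    linarith

open scoped Classical in
/-- For a fixed point, few forms are almost singular there. -/
theorem bad_real_point {d : Fin r → ℕ} (hd : ∀ i, 1 ≤ d i) (ρ : ∀ i, Fin (n i + 1))
    (η : Var n → ℝ) (hη : ∀ i, η ⟨i, ρ i⟩ = 1) (C₁ : ℝ) (hC : 0 ≤ C₁)
    (γ R : ℝ) (hγ : 0 < γ) (hγ1 : γ ≤ 1) (hγR : 1 ≤ γ ^ 2 * R) :
    (((formsM n d R).filter (fun f =>
      |MvPolynomial.aeval η f| ≤ C₁ * γ ^ 2 * R ∧
      ∀ a, |MvPolynomial.aeval η (MvPolynomial.pderiv a f)| ≤ C₁ * γ * R)).card : ℝ) ≤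
    (formsM n d (2 * R)).card * (((2 * C₁ + 1) * γ ^ 2) *
      ((2 * C₁ + 1) * γ) ^ Fintype.card (Fr ρ)) := by
  have hR : 0 < R := by
    by_contra h
    push Not at h
    have : γ ^ 2 * R ≤ 0 := mul_nonpos_of_nonneg_of_nonpos (by positivity) h
    linarith
  set s : Option (Fr ρ) → ℝ := fun k => Option.elim k (γ ^ 2) (fun _ => γ) with hs
  have hspos : ∀ k, 0 < s k := by
    intro k
    cases k with
    | none => simp only [hs, Option.elim_none]; positivity
    | some a => simp only [hs, Option.elim_some]; exact hγ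
  have hsR : ∀ k, 1 ≤ s k * R := by
    intro k
    cases k with
    | none => simp only [hs, Option.elim_none]; exact hγR
    | some a =>
      simp only [hs, Option.elim_some]
      have : γ ^ 2 * R ≤ γ * R := by
        apply mul_le_mul_of_nonneg_right _ hR.le
        nlinarith
      linarith
  set M : Option (Fr ρ) → ℕ := fun k => ⌊2 * C₁ * s k * R⌋₊ + 1 with hM
  have hMlt : ∀ k, 2 * C₁ * s k * R < M k := by
    intro k
    simp only [hM]
    push_cast
    exact Nat.lt_floor_add_one _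
  have hMle : ∀ k, (M k : ℝ) ≤ (2 * C₁ + 1) * s k * R := by
    intro k
    simp only [hM]
    push_cast
    have h1 : (⌊2 * C₁ * s k * R⌋₊ : ℝ) ≤ 2 * C₁ * s k * R := by
      apply Nat.floor_le
      have := hspos k
      positivity
    have h2 := hsR k
    linarith
  have hMpos : ∀ k, 0 < M k := fun k => Nat.succ_pos _
  set T : Option (Fr ρ) → ℕ := fun k => ⌊R / M k⌋₊ with hT
  set B : Finset (Option (Fr ρ) → ℤ) := (Fintype.piFinset (fun k => Finset.range (T k + 1))).image
    (fun t k => (M k : ℤ) * (t k : ℤ)) with hB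
  have hBcard : B.card = ∏ k, (T k + 1) := by
    rw [hB, Finset.card_image_of_injective, Fintype.card_piFinset]
    · simp
    · intro t t' h
      funext k
      have h1 := congrFun h k
      simp only at h1
      have h2 : (M k : ℤ) ≠ 0 := by exact_mod_cast (hMpos k).ne'
      have h3 := mul_left_cancel₀ h2 h1
      exact_mod_cast h3
  have hmain := inj_count hd ρ R R hR.le (fun f =>
      |MvPolynomial.aeval η f| ≤ C₁ * γ ^ 2 * R ∧
      ∀ a, |MvPolynomial.aeval η (MvPolynomial.pderiv a f)| ≤ C₁ * γ * R) B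
    (by
      intro c hc k
      rw [hB, Finset.mem_image] at hc
      obtain ⟨t, ht, rfl⟩ := hc
      have h1 := Finset.mem_range.mp (Fintype.mem_piFinset.mp ht k)
      push_cast
      rw [abs_of_nonneg (by positivity)]
      have h2 : (t k : ℝ) ≤ R / M k := by
        have h3 : (t k : ℝ) ≤ (T k : ℝ) := by exact_mod_cast Nat.lt_succ_iff.mp h1
        refine h3.trans ?_
        simp only [hT]
        exact Nat.floor_le (by positivity)
      have h4 : (0 : ℝ) < M k := by exact_mod_cast hMpos k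
      rw [le_div_iff₀ h4] at h2
      linarith)
    (by
      rintro f g ⟨f1, f2⟩ ⟨g1, g2⟩ c hc c' hc' hpe
      rw [hB, Finset.mem_image] at hc hc'
      obtain ⟨t, ht, rfl⟩ := hc
      obtain ⟨t', ht', rfl⟩ := hc'
      have key : ∀ k, |(((M k : ℤ) * (t k : ℤ) - (M k : ℤ) * (t' k : ℤ) : ℤ) : ℝ)| < M k →
          (M k : ℤ) * (t k : ℤ) = (M k : ℤ) * (t' k : ℤ) := by
        intro k hi
        have h1 : |((M k : ℤ) * (t k : ℤ) - (M k : ℤ) * (t' k : ℤ) : ℤ)| < (M k : ℤ) := by
          exact_mod_cast hi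
        have h2 : (M k : ℤ) ∣ ((M k : ℤ) * (t k : ℤ) - (M k : ℤ) * (t' k : ℤ)) :=
          ⟨t k - t' k, by ring⟩
        have h3 := Int.eq_zero_of_abs_lt_dvd h2 h1
        omega
      have hne : ∀ a : Fr ρ, (M (some a) : ℤ) * (t (some a) : ℤ) =
          (M (some a) : ℤ) * (t' (some a) : ℤ) := by
        intro a
        apply key
        have h3 := pert_pderiv d ρ (fun k => (M k : ℤ) * (t k : ℤ) - (M k : ℤ) * (t' k : ℤ)) η
          hη a
        rw [← h3, hpe, map_sub, map_sub]
        refine lt_of_le_of_lt (abs_sub _ _) ?_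
        have h4 := hMlt (some a)
        have h5 : s (some a) = γ := rfl
        rw [h5] at h4
        have h6 := f2 a.1
        have h7 := g2 a.1
        linarith
      have hr : (M none : ℤ) * (t none : ℤ) = (M none : ℤ) * (t' none : ℤ) := by
        apply key
        have h3 := pert_aeval d ρ (fun k => (M k : ℤ) * (t k : ℤ) - (M k : ℤ) * (t' k : ℤ)) η hη
          (fun a => by rw [hne a, sub_self])
        rw [← h3, hpe, map_sub]
        refine lt_of_le_of_lt (abs_sub _ _) ?_
        have h5 := hMlt none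
        have h6 : s none = γ ^ 2 := rfl
        rw [h6] at h5
        linarith
      funext k
      cases k with
      | none => exact hr
      | some a => exact hne a)
  rw [hBcard, show R + R = 2 * R by ring] at hmain
  set A := ((formsM n d R).filter (fun f =>
      |MvPolynomial.aeval η f| ≤ C₁ * γ ^ 2 * R ∧
      ∀ a, |MvPolynomial.aeval η (MvPolynomial.pderiv a f)| ≤ C₁ * γ * R)).card with hA
  have hmain' : (A : ℝ) * ∏ k, ((T k : ℝ) + 1) ≤ (formsM n d (2 * R)).card := by
    have : ((A * ∏ k, (T k + 1) : ℕ) : ℝ) ≤ ((formsM n d (2 * R)).card : ℝ) := by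
      exact_mod_cast hmain
    rw [Nat.cast_mul, Nat.cast_prod] at this
    simpa using this
  have hone : ∀ k, 1 ≤ ((T k : ℝ) + 1) * ((2 * C₁ + 1) * s k) := by
    intro k
    have h4 : (0 : ℝ) < M k := by exact_mod_cast hMpos k
    have h1 : R / M k < (T k : ℝ) + 1 := by
      simp only [hT]
      exact Nat.lt_floor_add_one _
    rw [div_lt_iff₀ h4] at h1
    have h2 := hMle k
    have h5 : (0 : ℝ) ≤ (T k : ℝ) + 1 := by positivity
    have h3 : R < ((T k : ℝ) + 1) * ((2 * C₁ + 1) * s k * R) :=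
      lt_of_lt_of_le h1 (mul_le_mul_of_nonneg_left h2 h5)
    have h6 : 1 * R < ((T k : ℝ) + 1) * ((2 * C₁ + 1) * s k) * R := by linarith
    exact (lt_of_mul_lt_mul_right h6 hR.le).le
  have hprod : 1 ≤ (∏ k, ((T k : ℝ) + 1)) * ∏ k, ((2 * C₁ + 1) * s k) := by
    rw [← Finset.prod_mul_distrib]
    calc (1 : ℝ) = ∏ _k : Option (Fr ρ), (1 : ℝ) := by simp
      _ ≤ _ := Finset.prod_le_prod (fun i _ => zero_le_one) (fun i _ => hone i)
  have hnn : 0 ≤ ∏ k, ((2 * C₁ + 1) * s k) := by
    apply Finset.prod_nonneg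
    intro k _
    have := hspos k
    positivity
  have hval : ∏ k, ((2 * C₁ + 1) * s k) = ((2 * C₁ + 1) * γ ^ 2) *
      ((2 * C₁ + 1) * γ) ^ Fintype.card (Fr ρ) := by
    rw [Fintype.prod_option]
    simp only [hs, Option.elim_none, Option.elim_some]
    rw [Finset.prod_const, Finset.card_univ]
  rw [← hval]
  calc (A : ℝ) = A * 1 := by ring
    _ ≤ A * ((∏ k, ((T k : ℝ) + 1)) * ∏ k, ((2 * C₁ + 1) * s k)) :=
        mul_le_mul_of_nonneg_left hprod (by positivity)
    _ = (A * ∏ k, ((T k : ℝ) + 1)) * ∏ k, ((2 * C₁ + 1) * s k) := by ring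
    _ ≤ _ := mul_le_mul_of_nonneg_right hmain' hnn

open scoped Classical in
theorem bad_count_M_real {r : ℕ} (n d : Fin r → ℕ) (hd : ∀ i, 1 ≤ d i) : ∃ C : ℝ, 0 < C ∧
    ∀ (γ R : ℝ), 0 < γ → γ ≤ 1 → 1 ≤ γ ^ 2 * R →
    (((formsM n d R).filter (fun f => ∃ ξ : Var n → ℝ, Norm1 ξ ∧ (∀ a, |ξ a| ≤ 1) ∧
      |MvPolynomial.aeval ξ f| ≤ γ ^ 2 * R ∧
      ∀ a, |MvPolynomial.aeval ξ (MvPolynomial.pderiv a f)| ≤ γ * R)).card : ℝ) ≤
    C * γ ^ 2 * (formsM n d (2 * R)).card := by
  obtain ⟨K, hK, hT⟩ := poly_taylor (monsM n d)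
  set k := Fintype.card (Var n) with hk
  set C₁ : ℝ := 1 + k + K with hC₁
  have hC₁0 : 0 ≤ C₁ := by positivity
  set D : ℝ := 2 * C₁ + 1 with hD
  have hD1 : 1 ≤ D := by linarith
  have hD0 : 0 < D := by linarith
  set W := Fintype.card (∀ i, Fin (n i + 1)) with hW
  refine ⟨W * (D * (5 * D) ^ k) + 1, by positivity, ?_⟩
  intro γ R hγ hγ1 hγR
  have hR : 0 < R := by
    by_contra h
    push Not at h
    have : γ ^ 2 * R ≤ 0 := mul_nonpos_of_nonneg_of_nonpos (by positivity) h
    linarith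
  set N : ℕ := ⌈1 / γ⌉₊ with hN
  have hN1 : 1 / γ ≤ N := Nat.le_ceil _
  have hN2 : (N : ℝ) < 1 / γ + 1 := Nat.ceil_lt_add_one (by positivity)
  have hginv : 1 ≤ 1 / γ := by rw [le_div_iff₀ hγ]; linarith
  have hN0 : (0 : ℝ) < N := by linarith
  set G : ∀ ρ : (∀ i, Fin (n i + 1)), Finset (Fr ρ → ℤ) := fun ρ => Fintype.piFinset
    (fun _ => Finset.Icc (-(N : ℤ)) N) with hG
  set pt : ∀ ρ : (∀ i, Fin (n i + 1)), (Fr ρ → ℤ) → (Var n → ℝ) := fun ρ y a =>
    if h : a.2 = ρ a.1 then 1 else (y ⟨a, h⟩ : ℝ) / N with hpt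
  set P : (Var n → ℝ) → Finset (MvPolynomial (Var n) ℤ) := fun η => (formsM n d R).filter (fun f =>
      |MvPolynomial.aeval η f| ≤ C₁ * γ ^ 2 * R ∧
      ∀ a, |MvPolynomial.aeval η (MvPolynomial.pderiv a f)| ≤ C₁ * γ * R) with hP
  set bad := (formsM n d R).filter (fun f => ∃ ξ : Var n → ℝ, Norm1 ξ ∧ (∀ a, |ξ a| ≤ 1) ∧
      |MvPolynomial.aeval ξ f| ≤ γ ^ 2 * R ∧
      ∀ a, |MvPolynomial.aeval ξ (MvPolynomial.pderiv a f)| ≤ γ * R) with hbad
  have hcov : bad ⊆ (Finset.univ : Finset (∀ i, Fin (n i + 1))).biUnion (fun ρ =>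
      (G ρ).biUnion (fun y => P (pt ρ y))) := by
    intro f hf
    obtain ⟨hf1, ξ, hξr, hξ, h1, h2⟩ := Finset.mem_filter.mp hf
    choose ρ hρ using hξr
    rw [Finset.mem_biUnion]
    refine ⟨ρ, Finset.mem_univ _, ?_⟩
    rw [Finset.mem_biUnion]
    have hρ' : ∀ a : Var n, a.2 = ρ a.1 → ξ a = 1 := by
      intro a ha
      have h3 := hρ a.1
      rw [← ha] at h3
      exact h3
    have hlo : ∀ i, -(N : ℝ) ≤ N * ξ i := by
      intro i
      have := (abs_le.mp (hξ i)).1
      nlinarith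
    have hhi : ∀ i, N * ξ i ≤ N := by
      intro i
      have := (abs_le.mp (hξ i)).2
      nlinarith
    have hy1 : ∀ i, -(N : ℤ) ≤ ⌊N * ξ i⌋ := by
      intro i
      rw [Int.le_floor]
      push_cast
      exact hlo i
    have hy2 : ∀ i, ⌊N * ξ i⌋ ≤ (N : ℤ) := by
      intro i
      have h3 := (Int.floor_le (N * ξ i)).trans (hhi i)
      exact_mod_cast h3
    refine ⟨fun a => ⌊N * ξ a.1⌋, ?_, ?_⟩
    · simp only [hG]
      rw [Fintype.mem_piFinset]
      intro a
      rw [Finset.mem_Icc]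
      exact ⟨hy1 a.1, hy2 a.1⟩
    · simp only [hP]
      rw [Finset.mem_filter]
      have hη1 : ∀ a, |pt ρ (fun a => ⌊N * ξ a.1⌋) a| ≤ 1 := by
        intro a
        simp only [hpt]
        split_ifs with h
        · simp
        · rw [abs_div, abs_of_pos hN0, div_le_one hN0, abs_le]
          constructor
          · exact_mod_cast hy1 a
          · exact_mod_cast hy2 a
      have hηd : ∀ a, |pt ρ (fun a => ⌊N * ξ a.1⌋) a - ξ a| ≤ γ := by
        intro a
        simp only [hpt]
        split_ifs with h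
        · rw [hρ' a h, sub_self, abs_zero]; exact hγ.le
        · have h3 : ((⌊N * ξ a⌋ : ℤ) : ℝ) / N - ξ a = (((⌊N * ξ a⌋ : ℤ) : ℝ) - N * ξ a) / N := by
            field_simp
          rw [h3, abs_div, abs_of_pos hN0, div_le_iff₀ hN0]
          have h4 : 1 ≤ γ * N := by
            rw [div_le_iff₀ hγ] at hN1
            linarith
          refine le_trans ?_ h4
          rw [abs_le]
          constructor
          · have := Int.lt_floor_add_one (N * ξ a)
            linarith
          · have := Int.floor_le (N * ξ a)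
            linarith
      have hfM := mem_formsM.mp hf1
      obtain ⟨t1, t2⟩ := hT R hR.le f (fun m hm => hfM.mem_monsM hm) hfM.2 ξ
        (pt ρ (fun a => ⌊N * ξ a.1⌋)) γ hγ.le hξ hη1 hηd
      refine ⟨hf1, ?_, fun i => ?_⟩
      · have h5 : ∑ i, |MvPolynomial.aeval ξ (MvPolynomial.pderiv i f)| * γ ≤ k * (γ * R * γ) := by
          have : ∀ i ∈ (Finset.univ : Finset (Var n)),
              |MvPolynomial.aeval ξ (MvPolynomial.pderiv i f)| * γ ≤ γ * R * γ :=
            fun i _ => mul_le_mul_of_nonneg_right (h2 i) hγ.le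
          have h6 := Finset.sum_le_card_nsmul _ _ _ this
          rw [nsmul_eq_mul, Finset.card_univ] at h6
          exact h6
        rw [hC₁]
        nlinarith
      · have h6 := t2 i
        have h7 := h2 i
        rw [hC₁]
        have h8 : 0 ≤ (k : ℝ) * γ * R := by positivity
        nlinarith
  set F : ℝ := ((formsM n d (2 * R)).card : ℝ) with hF
  have hF0 : 0 ≤ F := by positivity
  have hP1 : ∀ ρ, ∀ y ∈ G ρ, ((P (pt ρ y)).card : ℝ) ≤ F * ((D * γ ^ 2) *
      (D * γ) ^ Fintype.card (Fr ρ)) := by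
    intro ρ y _
    simp only [hP]
    apply bad_real_point hd ρ _ _ C₁ hC₁0 γ R hγ hγ1 hγR
    intro i
    simp only [hpt]
    rw [dif_pos trivial]
  have hGc : ∀ ρ : (∀ i, Fin (n i + 1)), ((G ρ).card : ℝ) * ((D * γ ^ 2) *
      (D * γ) ^ Fintype.card (Fr ρ)) ≤ D * (5 * D) ^ k * γ ^ 2 := by
    intro ρ
    have h3 : ((G ρ).card : ℝ) = (2 * N + 1) ^ Fintype.card (Fr ρ) := by
      simp only [hG]
      rw [Fintype.card_piFinset, Finset.prod_const, Finset.card_univ, Int.card_Icc]
      have h4 : ((N : ℤ) + 1 - -(N : ℤ)).toNat = 2 * N + 1 := by omega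
      rw [h4]
      push_cast
      ring
    have h6 : (2 * N + 1) * γ ≤ 5 := by
      have h7 : (N : ℝ) * γ < (1 / γ + 1) * γ := mul_lt_mul_of_pos_right hN2 hγ
      have h8 : (1 / γ + 1) * γ = 1 + γ := by field_simp
      rw [h8] at h7
      linarith
    have h9 : ((2 * N + 1) * (D * γ)) ^ Fintype.card (Fr ρ) ≤ (5 * D) ^ k := by
      calc ((2 * (N : ℝ) + 1) * (D * γ)) ^ Fintype.card (Fr ρ) ≤
            (5 * D) ^ Fintype.card (Fr ρ) := by
            apply pow_le_pow_left₀ (by positivity)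
            calc (2 * (N : ℝ) + 1) * (D * γ) = D * ((2 * N + 1) * γ) := by ring
              _ ≤ D * 5 := mul_le_mul_of_nonneg_left h6 hD0.le
              _ = 5 * D := by ring
        _ ≤ (5 * D) ^ k := by
            apply pow_le_pow_right₀ (by linarith)
            exact Fintype.card_subtype_le _
    rw [h3]
    calc (2 * (N : ℝ) + 1) ^ Fintype.card (Fr ρ) * ((D * γ ^ 2) *
        (D * γ) ^ Fintype.card (Fr ρ)) =
          D * γ ^ 2 * ((2 * N + 1) * (D * γ)) ^ Fintype.card (Fr ρ) := by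
          rw [mul_pow (2 * (N : ℝ) + 1)]; ring
      _ ≤ D * γ ^ 2 * (5 * D) ^ k := mul_le_mul_of_nonneg_left h9 (by positivity)
      _ = _ := by ring
  calc (bad.card : ℝ) ≤
      ((∑ ρ : (∀ i, Fin (n i + 1)), ∑ y ∈ G ρ, (P (pt ρ y)).card : ℕ) : ℝ) := by
        have := (Finset.card_le_card hcov).trans (Finset.card_biUnion_le.trans
          (Finset.sum_le_sum (fun ρ _ => Finset.card_biUnion_le)))
        exact_mod_cast this
    _ = ∑ ρ : (∀ i, Fin (n i + 1)), ∑ y ∈ G ρ, ((P (pt ρ y)).card : ℝ) := by push_cast; rfl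
    _ ≤ ∑ ρ : (∀ i, Fin (n i + 1)), ((G ρ).card : ℝ) * (F * ((D * γ ^ 2) *
      (D * γ) ^ Fintype.card (Fr ρ))) := by
        refine Finset.sum_le_sum (fun ρ _ => ?_)
        rw [← nsmul_eq_mul]
        exact Finset.sum_le_card_nsmul _ _ _ (hP1 ρ)
    _ ≤ ∑ _ρ : (∀ i, Fin (n i + 1)), F * (D * (5 * D) ^ k * γ ^ 2) := by
        refine Finset.sum_le_sum (fun ρ _ => ?_)
        have h3 := mul_le_mul_of_nonneg_left (hGc ρ) hF0
        calc _ = F * (((G ρ).card : ℝ) * ((D * γ ^ 2) *
              (D * γ) ^ Fintype.card (Fr ρ))) := by ring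
          _ ≤ _ := h3
    _ = W * (D * (5 * D) ^ k) * γ ^ 2 * F := by
        rw [Finset.sum_const, Finset.card_univ, nsmul_eq_mul]; ring
    _ ≤ (W * (D * (5 * D) ^ k) + 1) * γ ^ 2 * F := by
        apply mul_le_mul_of_nonneg_right _ hF0
        apply mul_le_mul_of_nonneg_right _ (by positivity)
        linarith

end Pool.Agent.Y362.MH

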