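import Pool.Agent.Y716.Q.Good
import Pool.Agent.Y716.Q.Test

/-!
# Counting integer vectors with small or divisible `2 × 2` minors
-/

set_option autoImplicit false

namespace Pool.Agent.Y362.MH

open Pool.Agent.Y716.Q

section

/-- Counting along the fibres of a map. -/
theorem card_le_fib {α β : Type*} [DecidableEq β] (U : Finset α) (f : α → β) (c N : ℝ)
    (hc : 0 ≤ c)
    (hf : ∀ b ∈ U.image f, ((U.filter (fun a => f a = b)).card : ℝ) ≤ c)
    (hN : ((U.image f).card : ℝ) ≤ N) : (U.card : ℝ) ≤ c * N := by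
  have h1 : (U.card : ℝ) = ∑ b ∈ U.image f, ((U.filter (fun a => f a = b)).card : ℝ) := by
    rw [Finset.card_eq_sum_card_image f U]
    push_cast
    rfl
  rw [h1]
  calc ∑ b ∈ U.image f, ((U.filter (fun a => f a = b)).card : ℝ)
      ≤ ∑ _b ∈ U.image f, c := Finset.sum_le_sum hf
    _ = c * ((U.image f).card : ℝ) := by rw [Finset.sum_const, nsmul_eq_mul, mul_comm]
    _ ≤ c * N := mul_le_mul_of_nonneg_left hN hc

variable {ι : Type*} [Fintype ι]

open scoped Classical in
/-- Vectors with one coordinate equal to zero and the others in an interval. -/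
theorem card_box (j₀ : ι) (A : ℝ) (hA : 0 ≤ A) (W : Finset (ι → ℤ))
    (hW : ∀ t ∈ W, t j₀ = 0 ∧ ∀ i, |(t i : ℝ)| ≤ A) :
    (W.card : ℝ) ≤ (2 * A + 1) ^ (Fintype.card ι - 1) := by
  have h1 : W ⊆ Fintype.piFinset (fun i => if i = j₀ then ({0} : Finset ℤ) else ivl (-A) A) := by
    intro t ht
    rw [Fintype.mem_piFinset]
    intro i
    obtain ⟨h0, h2⟩ := hW t ht
    by_cases hi : i = j₀
    · rw [if_pos hi, Finset.mem_singleton, hi]
      exact h0
    · rw [if_neg hi, mem_ivl, ← abs_le]
      exact h2 i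
  have h2 := Finset.card_le_card h1
  rw [Fintype.card_piFinset, ← Finset.mul_prod_erase Finset.univ _ (Finset.mem_univ j₀),
    if_pos rfl, Finset.card_singleton, one_mul] at h2
  have h3 : ∏ i ∈ Finset.univ.erase j₀, (if i = j₀ then ({0} : Finset ℤ) else ivl (-A) A).card
      = (ivl (-A) A).card ^ (Fintype.card ι - 1) := by
    rw [Finset.prod_congr rfl (g := fun _ => (ivl (-A) A).card), Finset.prod_const,
      Finset.card_erase_of_mem (Finset.mem_univ j₀), Finset.card_univ]
    intro i hi
    rw [if_neg (Finset.ne_of_mem_erase hi)]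
  rw [h3] at h2
  have h4 : (W.card : ℝ) ≤ ((ivl (-A) A).card : ℝ) ^ (Fintype.card ι - 1) := by
    exact_mod_cast h2
  refine h4.trans ?_
  apply pow_le_pow_left₀ (Nat.cast_nonneg _)
  have h5 := card_ivl_le (a := -A) (b := A) (by linarith)
  linarith

open scoped Classical in
/-- Vectors in one residue class. -/
theorem class_count {B : ℝ} (hB : 0 ≤ B) (G : ℕ) (hG : 1 ≤ G) (c : ι → ℤ)
    (U : Finset (ι → ℤ)) (hU : ∀ y ∈ U, (∀ i, |(y i : ℝ)| ≤ B) ∧ ∀ i, (G : ℤ) ∣ y i - c i) :
    (U.card : ℝ) ≤ (2 * B / G + 1) ^ Fintype.card ι := by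
  have hG0 : (0:ℝ) < G := by exact_mod_cast hG
  have h1 : U.card ≤ (Fintype.piFinset
      (fun i : ι => ivl ((-B - c i) / G) ((B - c i) / G))).card := by
    apply Finset.card_le_card_of_injOn (fun y i => (y i - c i) / (G : ℤ))
    · intro y hy
      obtain ⟨h1, h2⟩ := hU y hy
      simp only [Finset.mem_coe, Fintype.mem_piFinset]
      intro i
      obtain ⟨d, hd⟩ := h2 i
      have h3 : (y i - c i) / (G : ℤ) = d := by
        rw [hd]; exact Int.mul_ediv_cancel_left _ (by exact_mod_cast (by omega : G ≠ 0))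
      have h4 := abs_le.mp (h1 i)
      have h5 : (y i : ℝ) - c i = G * d := by exact_mod_cast hd
      rw [h3, mem_ivl, div_le_iff₀ hG0, le_div_iff₀ hG0]
      constructor
      · nlinarith [h4.1]
      · nlinarith [h4.2]
    · intro x hx y hy heq
      obtain ⟨_, h2⟩ := hU x hx
      obtain ⟨_, h2'⟩ := hU y hy
      funext i
      have h3 := congrFun heq i
      simp only at h3
      have h4 := Int.mul_ediv_cancel' (h2 i)
      have h5 := Int.mul_ediv_cancel' (h2' i)
      rw [h3] at h4
      omega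
  rw [Fintype.card_piFinset] at h1
  have h2 : (U.card : ℝ) ≤ ∏ i : ι, ((ivl ((-B - c i) / G) ((B - c i) / G)).card : ℝ) := by
    exact_mod_cast h1
  refine h2.trans ?_
  have h3 : ∏ i : ι, ((ivl ((-B - c i) / G) ((B - c i) / G)).card : ℝ)
      ≤ ∏ _i : ι, (2 * B / G + 1) := by
    apply Finset.prod_le_prod
    · intro i _; exact Nat.cast_nonneg _
    · intro i _
      have h4 := card_ivl_le (a := (-B - c i) / G) (b := (B - c i) / G) (by
        apply div_le_div_of_nonneg_right _ hG0.le
        linarith)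
      refine h4.trans (le_of_eq ?_)
      field_simp
      ring
  rwa [Finset.prod_const, Finset.card_univ] at h3

end

section

variable {ι : Type*} [Fintype ι]

open scoped Classical in
theorem small_minor_count {ι : Type*} [Fintype ι] (hk : 2 ≤ Fintype.card ι) {L κ : ℝ} (hL : 1 ≤ L)
    (hκ : 0 < κ) (hκL : 1 ≤ κ * L) {s : ι → ℤ} (hs : Sz L s) (U : Finset (ι → ℤ))
    (hU : ∀ t ∈ U, (∀ i, |(t i : ℝ)| ≤ L) ∧ ∀ i j, |(mn s t i j : ℝ)| ≤ κ * L ^ 2) :
    (U.card : ℝ) ≤ 3 * κ * (3 * L) ^ Fintype.card ι := by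
  obtain ⟨r, hr⟩ := hs.2
  obtain ⟨j₀, hj₀⟩ : ∃ j₀ : ι, j₀ ≠ r := by
    haveI : Nontrivial ι := Fintype.one_lt_card_iff_nontrivial.mp (by omega)
    exact exists_ne r
  have hr0 : 0 < |(s r : ℝ)| := lt_of_lt_of_le (by linarith) hr
  have hr1 : (s r : ℝ) ≠ 0 := abs_pos.mp hr0
  have key := card_le_fib U (fun t => Function.update t j₀ 0) (9 * κ * L)
    ((3 * L) ^ (Fintype.card ι - 1)) (by positivity) ?_ ?_
  · refine key.trans (le_of_eq ?_)
    obtain ⟨m, hm⟩ : ∃ m, Fintype.card ι = m + 1 := ⟨Fintype.card ι - 1, by omega⟩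
    rw [hm, Nat.add_sub_cancel, pow_succ]
    ring
  · intro b hb
    have h1 : (U.filter (fun t => Function.update t j₀ 0 = b)).card ≤
        (ivl ((s j₀ : ℝ) * b r / s r - 4 * κ * L) ((s j₀ : ℝ) * b r / s r + 4 * κ * L)).card := by
      apply Finset.card_le_card_of_injOn (fun t => t j₀)
      · intro t ht
        rw [Finset.mem_coe, Finset.mem_filter] at ht
        obtain ⟨htU, htb⟩ := ht
        have h2 : t r = b r := by
          rw [← htb, Function.update_of_ne hj₀.symm]
        have h3 := (hU t htU).2 r j₀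
        have h4 : (t j₀ : ℝ) - (s j₀ : ℝ) * b r / s r = (mn s t r j₀ : ℝ) / s r := by
          unfold mn
          push_cast
          rw [h2]
          field_simp
        have h5 : |(t j₀ : ℝ) - (s j₀ : ℝ) * b r / s r| ≤ 4 * κ * L := by
          rw [h4, abs_div, div_le_iff₀ hr0]
          refine h3.trans ?_
          have h6 : 4 * κ * L * (L / 4) ≤ 4 * κ * L * |(s r : ℝ)| :=
            mul_le_mul_of_nonneg_left hr (by positivity)
          refine le_trans (le_of_eq ?_) h6
          ring
        have h6 := abs_le.mp h5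
        rw [Finset.mem_coe, mem_ivl]
        constructor
        · linarith [h6.1]
        · linarith [h6.2]
      · intro x hx y hy heq
        rw [Finset.mem_coe, Finset.mem_filter] at hx hy
        have h2 : Function.update x j₀ 0 = Function.update y j₀ 0 := hx.2.trans hy.2.symm
        funext i
        by_cases hi : i = j₀
        · rw [hi]; exact heq
        · have h3 := congrFun h2 i
          rwa [Function.update_of_ne hi, Function.update_of_ne hi] at h3
    have h2 : ((U.filter (fun t => Function.update t j₀ 0 = b)).card : ℝ) ≤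
        ((ivl ((s j₀ : ℝ) * b r / s r - 4 * κ * L)
          ((s j₀ : ℝ) * b r / s r + 4 * κ * L)).card : ℝ) := by
      exact_mod_cast h1
    refine h2.trans ((card_ivl_le ?_).trans ?_)
    · have : 0 ≤ κ * L := by positivity
      linarith
    · linarith
  · have h1 := card_box j₀ L (by linarith) (U.image (fun t => Function.update t j₀ 0)) (by
      intro t ht
      rw [Finset.mem_image] at ht
      obtain ⟨t', ht', rfl⟩ := ht
      refine ⟨Function.update_self _ _ _, ?_⟩
      intro i
      by_cases hi : i = j₀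
      · rw [hi, Function.update_self]
        simp
        linarith
      · rw [Function.update_of_ne hi]
        exact (hU t' ht').1 i)
    refine h1.trans ?_
    apply pow_le_pow_left₀ (by linarith)
    linarith

open scoped Classical in
/-- The residue classes. -/
theorem dvd_count_gen {B : ℝ} {x : ι → ℤ} (hB : 0 ≤ B)
    (hx : Prim x) {G : ℕ} (hG : 1 ≤ G) (U : Finset (ι → ℤ))
    (hU : ∀ y ∈ U, (∀ i, |(y i : ℝ)| ≤ B) ∧ ∀ i j, (G : ℤ) ∣ mn x y i j) :
    (U.card : ℝ) ≤ G * (2 * B / G + 1) ^ Fintype.card ι := by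
  have hlam : ∀ y ∈ U, ∃ c : ℕ, c < G ∧ ∀ i, (G : ℤ) ∣ y i - c * x i := fun y hy =>
    exists_lambda hx (by omega) (hU y hy).2
  choose! lam hlam1 hlam2 using hlam
  have hnn : 0 ≤ (2 * B / (G : ℝ) + 1) ^ Fintype.card ι := by positivity
  have key := card_le_fib U lam ((2 * B / G + 1) ^ Fintype.card ι) G hnn ?_ ?_
  · rwa [mul_comm] at key
  · intro b hb
    apply class_count hB G hG (fun i => (b : ℤ) * x i)
    intro y hy
    rw [Finset.mem_filter] at hy
    refine ⟨(hU y hy.1).1, fun i => ?_⟩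
    have := hlam2 y hy.1 i
    rwa [hy.2] at this
  · have h1 : U.image lam ⊆ Finset.range G := by
      intro b hb
      rw [Finset.mem_image] at hb
      obtain ⟨y, hy, rfl⟩ := hb
      rw [Finset.mem_range]
      exact hlam1 y hy
    have h2 := Finset.card_le_card h1
    rw [Finset.card_range] at h2
    exact_mod_cast h2

theorem dvd_minor_count' {ι : Type*} [Fintype ι] (hk : 2 ≤ Fintype.card ι) {B : ℝ} {x : ι → ℤ}
    (hx : Prim x) {G : ℕ} (hG : 1 ≤ G) (hGB : (G : ℝ) ≤ B) (U : Finset (ι → ℤ))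
    (hU : ∀ y ∈ U, (∀ i, |(y i : ℝ)| ≤ B) ∧ ∀ i j, (G : ℤ) ∣ mn x y i j) :
    (U.card : ℝ) * (G : ℝ) ^ (Fintype.card ι - 1) ≤ (3 * B) ^ Fintype.card ι := by
  have hG0 : (0:ℝ) < G := by exact_mod_cast hG
  have hB : 0 ≤ B := hG0.le.trans hGB
  have h1 := dvd_count_gen hB hx hG U hU
  have h2 : 2 * B / G + 1 ≤ 3 * B / G := by
    rw [div_add_one hG0.ne', div_le_div_iff_of_pos_right hG0]
    linarith
  have h3 : (2 * B / (G:ℝ) + 1) ^ Fintype.card ι ≤ (3 * B / G) ^ Fintype.card ι :=
    pow_le_pow_left₀ (by positivity) h2 _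
  obtain ⟨m, hm⟩ : ∃ m, Fintype.card ι = m + 1 := ⟨Fintype.card ι - 1, by omega⟩
  rw [hm] at h1 h3 ⊢
  rw [Nat.add_sub_cancel]
  calc (U.card : ℝ) * (G : ℝ) ^ m ≤ (G * (3 * B / G) ^ (m + 1)) * (G : ℝ) ^ m := by
        apply mul_le_mul_of_nonneg_right _ (by positivity)
        exact h1.trans (mul_le_mul_of_nonneg_left h3 hG0.le)
    _ = (3 * B) ^ (m + 1) := by
        rw [div_pow, pow_succ (G : ℝ)]
        field_simp

theorem dvd_minor_count (k : ℕ) : ∃ C : ℝ, 0 < C ∧ ∀ {ι : Type} [Fintype ι], Fintype.card ι = k → 2 ≤ k →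
    ∀ (L : ℝ), 1 ≤ L → ∀ (s : ι → ℤ), Sz L s → Prim s → ∀ (G : ℕ), 1 ≤ G → ∀ U : Finset (ι → ℤ),
    (∀ t ∈ U, (∀ i, |(t i : ℝ)| ≤ L) ∧ (∀ i j, (G : ℤ) ∣ mn s t i j) ∧ ∃ i j, mn s t i j ≠ 0) →
    (U.card : ℝ) * G ≤ C * L ^ k := by
  classical
  refine ⟨4 ^ k + 17 * 6 ^ k, by positivity, ?_⟩
  intro ι _ hk hk2 L hL s hs hps G hG U hU
  have hG0 : (0:ℝ) < G := by exact_mod_cast hG
  have hG1 : (1:ℝ) ≤ G := by exact_mod_cast hG
  have hL0 : 0 < L := by linarith
  obtain ⟨m, hm⟩ : ∃ m, k = m + 2 := ⟨k - 2, by omega⟩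
  by_cases hGL : (G : ℝ) ≤ L
  · have h1 := dvd_count_gen hL0.le hps hG U (fun t ht => ⟨(hU t ht).1, (hU t ht).2.1⟩)
    rw [hk, hm] at h1
    have h2 : 2 * L / G + 1 ≤ 4 * L / G := by
      rw [div_add_one hG0.ne', div_le_div_iff_of_pos_right hG0]
      linarith
    have h3 : (2 * L / (G:ℝ) + 1) ^ (m + 2) ≤ (4 * L / G) ^ (m + 2) :=
      pow_le_pow_left₀ (by positivity) h2 _
    have h4 : (U.card : ℝ) * G ≤ (4 * L) ^ (m + 2) := by
      calc (U.card : ℝ) * G ≤ (G * (4 * L / G) ^ (m + 2)) * G :=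
            mul_le_mul_of_nonneg_right (h1.trans (mul_le_mul_of_nonneg_left h3 hG0.le)) hG0.le
        _ = (4 * L) ^ (m + 2) / (G : ℝ) ^ m := by
            rw [div_pow, pow_add (G : ℝ)]
            field_simp
        _ ≤ (4 * L) ^ (m + 2) := div_le_self (by positivity) (one_le_pow₀ hG1)
    rw [hm]
    refine h4.trans ?_
    rw [mul_pow]
    apply mul_le_mul_of_nonneg_right _ (by positivity)
    have : (0:ℝ) ≤ 17 * 6 ^ (m + 2) := by positivity
    linarith
  · rw [not_le] at hGL
    rcases U.eq_empty_or_nonempty with hUe | ⟨t₁, ht₁⟩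
    · rw [hUe, Finset.card_empty, Nat.cast_zero, zero_mul]
      positivity
    have hmn : ∀ t ∈ U, ∀ i j, |(mn s t i j : ℝ)| ≤ 2 * L ^ 2 := by
      intro t ht i j
      unfold mn
      push_cast
      refine (abs_sub _ _).trans ?_
      rw [abs_mul, abs_mul]
      have h1 := hs.1 i
      have h2 := hs.1 j
      have h3 := (hU t ht).1 i
      have h4 := (hU t ht).1 j
      have h5 := mul_le_mul h1 h4 (abs_nonneg _) hL0.le
      have h6 := mul_le_mul h2 h3 (abs_nonneg _) hL0.le
      nlinarith
    have hGL2 : (G : ℝ) ≤ 2 * L ^ 2 := by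
      obtain ⟨_, h2, i, j, h3⟩ := hU t₁ ht₁
      have h4 := Int.le_of_dvd (abs_pos.mpr h3) ((dvd_abs _ _).mpr (h2 i j))
      have h5 : (G : ℝ) ≤ |(mn s t₁ i j : ℝ)| := by exact_mod_cast h4
      exact h5.trans (hmn t₁ ht₁ i j)
    obtain ⟨r, hr⟩ := hs.2
    have hr0 : 0 < |(s r : ℝ)| := lt_of_lt_of_le (by linarith) hr
    have hr1 : (s r : ℝ) ≠ 0 := abs_pos.mp hr0
    have hr2 : s r ≠ 0 := by exact_mod_cast hr1
    have hGz : (G : ℤ) ≠ 0 := by exact_mod_cast (by omega : G ≠ 0)
    obtain ⟨w, hw⟩ := hps.bezout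
    have key := card_le_fib U (fun t j => mn s t r j / (G : ℤ)) 17
      ((2 * (2 * L ^ 2 / G) + 1) ^ (Fintype.card ι - 1)) (by norm_num) ?_ ?_
    · rw [hk, hm, show m + 2 - 1 = m + 1 by omega] at key
      have h2 : 2 * (2 * L ^ 2 / G) + 1 ≤ 6 * L ^ 2 / G := by
        have : 1 ≤ 2 * L ^ 2 / (G : ℝ) := by rwa [one_le_div hG0]
        have h3 : 6 * L ^ 2 / (G : ℝ) = 3 * (2 * L ^ 2 / G) := by ring
        rw [h3]; linarith
      have h3 : (2 * (2 * L ^ 2 / (G:ℝ)) + 1) ^ (m + 1) ≤ (6 * L ^ 2 / G) ^ (m + 1) :=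
        pow_le_pow_left₀ (by positivity) h2 _
      have h4 : (U.card : ℝ) * G ≤ 17 * 6 ^ (m + 1) * L ^ (m + 2) := by
        calc (U.card : ℝ) * G ≤ (17 * (6 * L ^ 2 / G) ^ (m + 1)) * G :=
              mul_le_mul_of_nonneg_right
                (key.trans (mul_le_mul_of_nonneg_left h3 (by norm_num))) hG0.le
          _ = 17 * 6 ^ (m + 1) * L ^ (m + 2) * (L / G) ^ m := by
              rw [div_pow, div_pow, mul_pow, pow_succ (G : ℝ)]
              field_simp
              ring
          _ ≤ 17 * 6 ^ (m + 1) * L ^ (m + 2) * 1 := by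
              apply mul_le_mul_of_nonneg_left _ (by positivity)
              apply pow_le_one₀ (by positivity)
              rw [div_le_one hG0]
              exact hGL.le
          _ = 17 * 6 ^ (m + 1) * L ^ (m + 2) := mul_one _
      rw [hm]
      refine h4.trans ?_
      apply mul_le_mul_of_nonneg_right _ (by positivity)
      have h5 : (17:ℝ) * 6 ^ (m + 1) ≤ 17 * 6 ^ (m + 2) := by
        apply mul_le_mul_of_nonneg_left _ (by norm_num)
        exact pow_le_pow_right₀ (by norm_num) (by omega)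
      have h6 : (0:ℝ) ≤ 4 ^ (m + 2) := by positivity
      linarith
    · intro b hb
      rw [Finset.mem_image] at hb
      obtain ⟨t₀, ht₀, hb⟩ := hb
      -- the difference of two elements of a fibre is a multiple of `s`
      have hdiff : ∀ t ∈ U.filter (fun t => (fun j => mn s t r j / (G : ℤ)) = b), ∃ c : ℤ,
          ∀ j, t j - t₀ j = c * s j := by
        intro t ht
        rw [Finset.mem_filter] at ht
        have h1 : ∀ j, mn s t r j = mn s t₀ r j := by
          intro j
          have h2 : mn s t r j / (G : ℤ) = mn s t₀ r j / (G : ℤ) :=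
            congrFun (ht.2.trans hb.symm) j
          have h3 := Int.mul_ediv_cancel' ((hU t ht.1).2.1 r j)
          have h4 := Int.mul_ediv_cancel' ((hU t₀ ht₀).2.1 r j)
          rw [h2] at h3
          exact h3.symm.trans h4
        have h5 : ∀ j, s r * (t j - t₀ j) = s j * (t r - t₀ r) := by
          intro j
          have := h1 j
          unfold mn at this
          linarith
        have h6 : t r - t₀ r = (∑ i, w i * (t i - t₀ i)) * s r := by
          calc t r - t₀ r = (∑ i, w i * s i) * (t r - t₀ r) := by rw [hw, one_mul]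
            _ = ∑ i, w i * (s i * (t r - t₀ r)) := by
                rw [Finset.sum_mul]
                exact Finset.sum_congr rfl (fun i _ => by ring)
            _ = ∑ i, w i * (t i - t₀ i) * s r := by
                refine Finset.sum_congr rfl (fun i _ => ?_)
                rw [← h5 i]; ring
            _ = (∑ i, w i * (t i - t₀ i)) * s r := by rw [Finset.sum_mul]
        refine ⟨∑ i, w i * (t i - t₀ i), fun j => ?_⟩
        have h7 := h5 j
        rw [h6] at h7
        apply mul_left_cancel₀ hr2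
        rw [h7]; ring
      choose! c hc using hdiff
      have h1 : (U.filter (fun t => (fun j => mn s t r j / (G : ℤ)) = b)).card ≤
          (Finset.Icc (-8 : ℤ) 8).card := by
        apply Finset.card_le_card_of_injOn c
        · intro t ht
          have ht' := hc t ht r
          have htU : t ∈ U := (Finset.mem_filter.mp ht).1
          have h2 : |(c t : ℝ)| * |(s r : ℝ)| ≤ 2 * L := by
            rw [← abs_mul]
            have h3 : (c t : ℝ) * s r = (t r : ℝ) - t₀ r := by exact_mod_cast ht'.symm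
            rw [h3]
            refine (abs_sub _ _).trans ?_
            linarith [(hU t htU).1 r, (hU t₀ ht₀).1 r]
          have h4 : |(c t : ℝ)| * (L / 4) ≤ 2 * L :=
            (mul_le_mul_of_nonneg_left hr (abs_nonneg _)).trans h2
          have h5 : |(c t : ℝ)| ≤ 8 := by
            by_contra hcon
            rw [not_le] at hcon
            nlinarith
          have h6 := abs_le.mp h5
          rw [Finset.mem_coe, Finset.mem_Icc]
          constructor
          · exact_mod_cast h6.1
          · exact_mod_cast h6.2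
        · intro x hx y hy heq
          have h2 := hc x hx
          have h3 := hc y hy
          funext j
          have h4 := h2 j
          have h5 := h3 j
          rw [heq] at h4
          linarith
      have h2 : (Finset.Icc (-8 : ℤ) 8).card = 17 := by decide
      rw [h2] at h1
      exact_mod_cast h1
    · apply card_box r (2 * L ^ 2 / G) (by positivity)
      intro u hu
      rw [Finset.mem_image] at hu
      obtain ⟨t, ht, rfl⟩ := hu
      refine ⟨?_, fun j => ?_⟩
      · have : mn s t r r = 0 := by unfold mn; ring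
        simp only [this, Int.zero_ediv]
      · obtain ⟨d, hd⟩ := (hU t ht).2.1 r j
        have h3 : mn s t r j / (G : ℤ) = d := by
          rw [hd]; exact Int.mul_ediv_cancel_left _ hGz
        simp only
        rw [h3, le_div_iff₀ hG0]
        have h4 := hmn t ht r j
        rw [hd] at h4
        push_cast at h4
        rw [abs_mul, abs_of_pos hG0] at h4
        linarith

end

end Pool.Agent.Y362.MH
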